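import Mathlib
import Pool.Agent.Work.MP_2738db_nt_U.Interface

set_option autoImplicit false

namespace Pool.Agent.Work.MP_2738db_nt_U.helper15

open Finset

section

variable {q : ℕ} [Fact q.Prime]

/-- the sum `f(B)` -/
noncomputable def fB (χ : MulChar (ZMod q) ℂ) (κ : ℕ) (B : ZMod q) : ℂ :=
  ∑ x : (ZMod q)ˣ, χ ((x : ZMod q) ^ κ + B)

lemma inner_ne (χ : MulChar (ZMod q) ℂ) (hχ : χ ≠ 1) (y y' : ZMod q) (h : y ≠ y') :
    ∑ B : ZMod q, χ (y + B) * χ⁻¹ (y' + B) = -1 := by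
  have hd : y - y' ≠ 0 := sub_ne_zero.mpr h
  have hbij : Function.Bijective (fun t : ZMod q => -y + (y - y') * t) := by
    have : Function.Injective (fun t : ZMod q => -y + (y - y') * t) := by
      intro a b hab
      simp only [add_right_inj] at hab
      exact mul_left_cancel₀ hd hab
    exact Finite.injective_iff_bijective.mp this
  rw [← Function.Bijective.sum_comp hbij (fun B => χ (y + B) * χ⁻¹ (y' + B))]
  have h1 : ∀ t : ZMod q, χ (y + (-y + (y - y') * t)) * χ⁻¹ (y' + (-y + (y - y') * t))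
      = χ⁻¹ (-1) * (χ t * χ⁻¹ (1 - t)) := by
    intro t
    have e1 : y + (-y + (y - y') * t) = (y - y') * t := by ring
    have e2 : y' + (-y + (y - y') * t) = (y - y') * ((-1) * (1 - t)) := by ring
    rw [e1, e2, map_mul, map_mul, map_mul]
    have e3 : χ (y - y') * χ⁻¹ (y - y') = 1 := by
      rw [← MulChar.mul_apply, mul_inv_cancel]
      exact MulChar.one_apply (IsUnit.mk0 _ hd)
    calc _ = (χ (y - y') * χ⁻¹ (y - y')) * (χ⁻¹ (-1) * (χ t * χ⁻¹ (1 - t))) := by ring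
      _ = _ := by rw [e3, one_mul]
  simp only [h1]
  rw [← mul_sum]
  have h2 : ∑ t : ZMod q, χ t * χ⁻¹ (1 - t) = jacobiSum χ χ⁻¹ := rfl
  rw [h2, jacobiSum_nontrivial_inv hχ]
  have h3 : χ⁻¹ (-1) * χ (-1) = 1 := by
    rw [← MulChar.mul_apply, inv_mul_cancel]
    exact MulChar.one_apply (IsUnit.mk0 _ (neg_ne_zero.mpr one_ne_zero))
  linear_combination (-1) * h3

lemma inner_re_le (χ : MulChar (ZMod q) ℂ) (hχ : χ ≠ 1) (y y' : ZMod q) :
    (∑ B : ZMod q, χ (y + B) * χ⁻¹ (y' + B)).re ≤ if y = y' then (q : ℝ) else 0 := by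
  split_ifs with h
  · refine (Complex.re_le_norm _).trans ?_
    refine (norm_sum_le _ _).trans ?_
    have h1 : ∀ B ∈ (univ : Finset (ZMod q)), ‖χ (y + B) * χ⁻¹ (y' + B)‖ ≤ 1 := by
      intro B _
      rw [norm_mul]
      exact mul_le_one₀ (DirichletCharacter.norm_le_one χ _) (norm_nonneg _)
        (DirichletCharacter.norm_le_one χ⁻¹ _)
    refine (sum_le_card_nsmul _ _ _ h1).trans ?_
    rw [card_univ, ZMod.card]
    simp
  · rw [inner_ne χ hχ y y' h]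
    simp

lemma card_pow_eq_le (κ : ℕ) (hκ : 1 ≤ κ) (c : (ZMod q)ˣ) :
    (univ.filter (fun u : (ZMod q)ˣ => u ^ κ = c)).card ≤ Nat.gcd κ (q - 1) := by
  classical
  have hcard : Fintype.card (ZMod q)ˣ = q - 1 := ZMod.card_units q
  have hg : 0 < Nat.gcd κ (q - 1) := Nat.gcd_pos_of_pos_left _ hκ
  rcases (univ.filter (fun u : (ZMod q)ˣ => u ^ κ = c)).eq_empty_or_nonempty with h | ⟨u0, h⟩
  · rw [h]
    simp
  · rw [mem_filter] at h
    refine le_trans ?_ (IsCyclic.card_pow_eq_one_le (α := (ZMod q)ˣ) hg)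
    apply card_le_card_of_injOn (fun u => u * u0⁻¹)
    · intro u hu
      simp only [coe_filter, mem_univ, true_and, Set.mem_ofPred_eq] at hu ⊢
      have h1 : (u * u0⁻¹) ^ κ = 1 := by
        rw [mul_pow, hu, inv_pow, h.2, mul_inv_cancel]
      have h2 : (u * u0⁻¹) ^ (q - 1) = 1 := by
        rw [← hcard]
        exact pow_card_eq_one
      exact pow_gcd_eq_one.mpr ⟨h1, h2⟩
    · intro a _ b _ hab
      simpa using hab

lemma sq_norm_fB (χ : MulChar (ZMod q) ℂ) (κ : ℕ) (B : ZMod q) :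
    ‖fB χ κ B‖ ^ 2 = (∑ x : (ZMod q)ˣ, ∑ x' : (ZMod q)ˣ,
      χ ((x : ZMod q) ^ κ + B) * χ⁻¹ ((x' : ZMod q) ^ κ + B)).re := by
  have h1 : fB χ κ B * star (fB χ κ B) = ∑ x : (ZMod q)ˣ, ∑ x' : (ZMod q)ˣ,
      χ ((x : ZMod q) ^ κ + B) * χ⁻¹ ((x' : ZMod q) ^ κ + B) := by
    unfold fB
    rw [star_sum, sum_mul_sum]
    simp only [MulChar.star_apply']
  rw [← h1]
  have h2 : fB χ κ B * star (fB χ κ B) = ((‖fB χ κ B‖ ^ 2 : ℝ) : ℂ) := by
    have := Complex.mul_conj' (fB χ κ B)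
    push_cast
    exact this
  rw [h2, Complex.ofReal_re]

lemma sum_sq_norm_fB (χ : MulChar (ZMod q) ℂ) (hχ : χ ≠ 1) (κ : ℕ) (hκ : 1 ≤ κ) :
    ∑ B : ZMod q, ‖fB χ κ B‖ ^ 2 ≤ (q : ℝ) * ((q - 1 : ℕ) : ℝ) * (Nat.gcd κ (q - 1) : ℝ) := by
  classical
  simp only [sq_norm_fB]
  rw [← Complex.re_sum]
  have h1 : ∑ B : ZMod q, ∑ x : (ZMod q)ˣ, ∑ x' : (ZMod q)ˣ,
      χ ((x : ZMod q) ^ κ + B) * χ⁻¹ ((x' : ZMod q) ^ κ + B)
      = ∑ x : (ZMod q)ˣ, ∑ x' : (ZMod q)ˣ, ∑ B : ZMod q,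
        χ ((x : ZMod q) ^ κ + B) * χ⁻¹ ((x' : ZMod q) ^ κ + B) := by
    rw [sum_comm]
    refine sum_congr rfl (fun x _ => ?_)
    rw [sum_comm]
  rw [h1, Complex.re_sum]
  have h2 : ∀ x ∈ (univ : Finset (ZMod q)ˣ), (∑ x' : (ZMod q)ˣ, ∑ B : ZMod q,
        χ ((x : ZMod q) ^ κ + B) * χ⁻¹ ((x' : ZMod q) ^ κ + B)).re
        ≤ (q : ℝ) * (Nat.gcd κ (q - 1) : ℝ) := by
    intro x _
    rw [Complex.re_sum]
    have h3 : ∀ x' ∈ (univ : Finset (ZMod q)ˣ), (∑ B : ZMod q,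
        χ ((x : ZMod q) ^ κ + B) * χ⁻¹ ((x' : ZMod q) ^ κ + B)).re
        ≤ if x' ^ κ = x ^ κ then (q : ℝ) else 0 := by
      intro x' _
      refine (inner_re_le χ hχ _ _).trans (le_of_eq ?_)
      have h4 : ((x : ZMod q) ^ κ = (x' : ZMod q) ^ κ) ↔ (x' ^ κ = x ^ κ) := by
        rw [← Units.val_pow_eq_pow_val, ← Units.val_pow_eq_pow_val, Units.val_inj]
        exact eq_comm
      simp only [h4]
    refine (sum_le_sum h3).trans ?_
    rw [← sum_filter, sum_const, nsmul_eq_mul, mul_comm]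
    apply mul_le_mul_of_nonneg_left _ (by positivity)
    exact_mod_cast card_pow_eq_le κ hκ (x ^ κ)
  refine (sum_le_card_nsmul _ _ _ h2).trans ?_
  rw [card_univ, ZMod.card_units, nsmul_eq_mul]
  apply le_of_eq
  ring

lemma norm_fB_mul (χ : MulChar (ZMod q) ℂ) (κ : ℕ) (B : ZMod q) (u : (ZMod q)ˣ) :
    ‖fB χ κ ((u : ZMod q) ^ κ * B)‖ = ‖fB χ κ B‖ := by
  have h1 : fB χ κ ((u : ZMod q) ^ κ * B) = χ ((u : ZMod q) ^ κ) * fB χ κ B := by
    unfold fB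
    rw [mul_sum, ← Equiv.sum_comp (Equiv.mulLeft u)]
    refine sum_congr rfl (fun x _ => ?_)
    rw [← map_mul, Equiv.coe_mulLeft]
    congr 1
    push_cast
    ring
  rw [h1, norm_mul]
  have h2 : ‖χ ((u : ZMod q) ^ κ)‖ = 1 := by
    rw [← Units.val_pow_eq_pow_val]
    exact DirichletCharacter.unit_norm_eq_one χ _
  rw [h2, one_mul]

lemma sq_norm_fB_le (χ : MulChar (ZMod q) ℂ) (hχ : χ ≠ 1) (κ : ℕ) (hκ : 1 ≤ κ) (β : ZMod q)
    (hβ : β ≠ 0) : ‖fB χ κ β‖ ^ 2 ≤ (Nat.gcd κ (q - 1) : ℝ) ^ 2 * q := by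
  classical
  set g : ℝ := (Nat.gcd κ (q - 1) : ℝ) with hg
  have h0 : ∑ u : (ZMod q)ˣ, ‖fB χ κ ((u : ZMod q) ^ κ * β)‖ ^ 2
      = ((q - 1 : ℕ) : ℝ) * ‖fB χ κ β‖ ^ 2 := by
    simp only [norm_fB_mul]
    rw [sum_const, card_univ, ZMod.card_units, nsmul_eq_mul]
  have h1 : ∑ u : (ZMod q)ˣ, ‖fB χ κ ((u : ZMod q) ^ κ * β)‖ ^ 2
      ≤ ∑ B : ZMod q, g * ‖fB χ κ B‖ ^ 2 := by
    rw [← sum_fiberwise (univ : Finset (ZMod q)ˣ) (fun u : (ZMod q)ˣ => (u : ZMod q) ^ κ * β)]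
    refine sum_le_sum (fun B _ => ?_)
    have h2 : ∀ u ∈ (univ : Finset (ZMod q)ˣ).filter (fun u : (ZMod q)ˣ => (u : ZMod q) ^ κ * β = B),
        ‖fB χ κ ((u : ZMod q) ^ κ * β)‖ ^ 2 = ‖fB χ κ B‖ ^ 2 := by
      intro u hu
      rw [mem_filter] at hu
      rw [hu.2]
    rw [sum_congr rfl h2, sum_const, nsmul_eq_mul]
    apply mul_le_mul_of_nonneg_right _ (by positivity)
    rw [hg]
    have h3 : ((univ : Finset (ZMod q)ˣ).filter (fun u : (ZMod q)ˣ => (u : ZMod q) ^ κ * β = B)).card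
        ≤ Nat.gcd κ (q - 1) := by
      rcases ((univ : Finset (ZMod q)ˣ).filter
        (fun u : (ZMod q)ˣ => (u : ZMod q) ^ κ * β = B)).eq_empty_or_nonempty with h | ⟨u0, h⟩
      · rw [h]
        simp
      · rw [mem_filter] at h
        refine le_trans (card_le_card ?_) (card_pow_eq_le κ hκ (u0 ^ κ))
        intro u hu
        rw [mem_filter] at hu ⊢
        refine ⟨mem_univ _, ?_⟩
        have h4 : (u : ZMod q) ^ κ * β = (u0 : ZMod q) ^ κ * β := by rw [hu.2, h.2]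
        have h5 := mul_right_cancel₀ hβ h4
        rw [← Units.val_pow_eq_pow_val, ← Units.val_pow_eq_pow_val, Units.val_inj] at h5
        exact h5
    exact_mod_cast h3
  rw [h0, ← mul_sum] at h1
  have h2 := sum_sq_norm_fB χ hχ κ hκ
  rw [← hg] at h2
  have hq1 : (0 : ℝ) < ((q - 1 : ℕ) : ℝ) := by
    have := (Fact.out : q.Prime).one_lt
    have h3 : 0 < q - 1 := by omega
    exact_mod_cast h3
  have hg0 : 0 ≤ g := by rw [hg]; positivity
  have h3 : ((q - 1 : ℕ) : ℝ) * ‖fB χ κ β‖ ^ 2 ≤ ((q - 1 : ℕ) : ℝ) * (g ^ 2 * q) := by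
    calc _ ≤ g * ∑ B : ZMod q, ‖fB χ κ B‖ ^ 2 := h1
      _ ≤ g * ((q : ℝ) * ((q - 1 : ℕ) : ℝ) * g) := mul_le_mul_of_nonneg_left h2 hg0
      _ = _ := by ring
  exact le_of_mul_le_mul_left h3 hq1

lemma card_eq_char_le (χ : MulChar (ZMod q) ℂ) (κ : ℕ) (β ρ : ZMod q) (hρ : ρ ≠ 0) :
    2 * ((univ.filter (fun u : (ZMod q)ˣ => χ ((u : ZMod q) ^ κ + β) = χ ρ)).card : ℝ)
      ≤ ‖fB χ κ β‖ + ((q - 1 : ℕ) : ℝ) := by
  classical
  have h1 : fB χ κ β = ∑ u ∈ univ.filter (fun u : (ZMod q)ˣ => χ ((u : ZMod q) ^ κ + β) = χ ρ),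
      χ ((u : ZMod q) ^ κ + β)
      + ∑ u ∈ univ.filter (fun u : (ZMod q)ˣ => ¬ χ ((u : ZMod q) ^ κ + β) = χ ρ),
      χ ((u : ZMod q) ^ κ + β) := by
    unfold fB
    rw [sum_filter_add_sum_filter_not]
  have h2 : ∑ u ∈ univ.filter (fun u : (ZMod q)ˣ => χ ((u : ZMod q) ^ κ + β) = χ ρ),
      χ ((u : ZMod q) ^ κ + β)
      = ((univ.filter (fun u : (ZMod q)ˣ => χ ((u : ZMod q) ^ κ + β) = χ ρ)).card : ℂ) * χ ρ := by
    rw [← nsmul_eq_mul, ← sum_const]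
    refine sum_congr rfl (fun u hu => ?_)
    rw [mem_filter] at hu
    exact hu.2
  have h3 : ‖∑ u ∈ univ.filter (fun u : (ZMod q)ˣ => ¬ χ ((u : ZMod q) ^ κ + β) = χ ρ),
      χ ((u : ZMod q) ^ κ + β)‖
      ≤ ((univ.filter (fun u : (ZMod q)ˣ => ¬ χ ((u : ZMod q) ^ κ + β) = χ ρ)).card : ℝ) := by
    refine (norm_sum_le _ _).trans ?_
    refine (sum_le_card_nsmul _ _ 1 (fun u _ => DirichletCharacter.norm_le_one χ _)).trans ?_
    simp
  have h4 : (univ.filter (fun u : (ZMod q)ˣ => χ ((u : ZMod q) ^ κ + β) = χ ρ)).card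
      + (univ.filter (fun u : (ZMod q)ˣ => ¬ χ ((u : ZMod q) ^ κ + β) = χ ρ)).card = q - 1 := by
    rw [card_filter_add_card_filter_not, card_univ, ZMod.card_units]
  have h5 : ((univ.filter (fun u : (ZMod q)ˣ => χ ((u : ZMod q) ^ κ + β) = χ ρ)).card : ℝ)
      + ((univ.filter (fun u : (ZMod q)ˣ => ¬ χ ((u : ZMod q) ^ κ + β) = χ ρ)).card : ℝ)
      = ((q - 1 : ℕ) : ℝ) := by
    exact_mod_cast h4
  have h6 : ‖((univ.filter (fun u : (ZMod q)ˣ => χ ((u : ZMod q) ^ κ + β) = χ ρ)).card : ℂ) * χ ρ‖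
      = ((univ.filter (fun u : (ZMod q)ˣ => χ ((u : ZMod q) ^ κ + β) = χ ρ)).card : ℝ) := by
    rw [norm_mul]
    have : ‖χ ρ‖ = 1 := by
      have := DirichletCharacter.unit_norm_eq_one χ (Units.mk0 ρ hρ)
      simpa using this
    rw [this, mul_one]
    simp
  have h7 := norm_sub_le (fB χ κ β) (∑ u ∈ univ.filter
    (fun u : (ZMod q)ˣ => ¬ χ ((u : ZMod q) ^ κ + β) = χ ρ), χ ((u : ZMod q) ^ κ + β))
  rw [h1, add_sub_cancel_right, h2, h6, ← h2, ← h1] at h7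
  linarith

end

theorem stmt_Loc : Stmt_Loc := by
  classical
  intro q l κ hq hl hlq hκ hgq β ρ hβ hρ
  have : Fact q.Prime := ⟨hq⟩
  have hl0 : l ≠ 0 := hl.ne_zero
  obtain ⟨χ, hχo⟩ := MulChar.exists_mulChar_orderOf (ZMod q) (R := ℂ) (n := l)
    (by rw [ZMod.card]; exact hlq) (Complex.isPrimitiveRoot_exp l hl0)
  have hχ1 : χ ≠ 1 := by
    intro h
    rw [h, orderOf_one] at hχo
    exact hl.one_lt.ne hχo
  have hχl : χ ^ l = 1 := by rw [← hχo]; exact pow_orderOf_eq_one χ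
  set g : ℕ := Nat.gcd κ (q - 1) with hg
  have hg1 : 1 ≤ g := Nat.gcd_pos_of_pos_left _ hκ
  have hN := sq_norm_fB_le χ hχ1 κ hκ β hβ
  rw [← hg] at hN
  have hgqR : 400 * (g : ℝ) ^ 2 ≤ q := by exact_mod_cast hgq
  have hg1R : (1 : ℝ) ≤ g := by exact_mod_cast hg1
  have hN2 : ‖fB χ κ β‖ ≤ q / 20 := by
    have h1 : ‖fB χ κ β‖ ^ 2 ≤ (q / 20 : ℝ) ^ 2 := by
      have h2 : (g : ℝ) ^ 2 * q ≤ (q / 400 : ℝ) * q :=
        mul_le_mul_of_nonneg_right (by linarith) (by positivity)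
      calc _ ≤ (g : ℝ) ^ 2 * q := hN
        _ ≤ (q / 400 : ℝ) * q := h2
        _ = _ := by ring
    exact le_of_sq_le_sq h1 (by positivity)
  have hC := card_eq_char_le χ κ β ρ hρ
  have hq1 : ((q - 1 : ℕ) : ℝ) ≤ q := by
    exact_mod_cast Nat.sub_le q 1
  -- the set
  rw [Nat.card_eq_fintype_card, Fintype.card_subtype]
  have hsub : (univ.filter (fun x : ZMod q => ∃ s : ZMod q, x ^ κ + β = ρ * s ^ l)) ⊆
      insert 0 (((univ.filter (fun u : (ZMod q)ˣ => u ^ κ = Units.mk0 (-β) (neg_ne_zero.mpr hβ)))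
        ∪ (univ.filter (fun u : (ZMod q)ˣ => χ ((u : ZMod q) ^ κ + β) = χ ρ))).image
          (fun u : (ZMod q)ˣ => (u : ZMod q))) := by
    intro x hx
    rw [mem_filter] at hx
    obtain ⟨-, s, hs⟩ := hx
    rw [mem_insert]
    by_cases hx0 : x = 0
    · exact Or.inl hx0
    · right
      rw [mem_image]
      refine ⟨Units.mk0 x hx0, ?_, rfl⟩
      rw [mem_union, mem_filter, mem_filter]
      by_cases hs0 : s = 0
      · left
        refine ⟨mem_univ _, ?_⟩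
        rw [hs0, zero_pow hl0, mul_zero] at hs
        apply Units.ext
        rw [Units.val_pow_eq_pow_val, Units.val_mk0, Units.val_mk0]
        exact eq_neg_of_add_eq_zero_left hs
      · right
        refine ⟨mem_univ _, ?_⟩
        rw [Units.val_mk0, hs, map_mul, map_pow, ← MulChar.pow_apply' χ hl0, hχl,
          MulChar.one_apply (IsUnit.mk0 _ hs0), mul_one]
  have h1 : ((univ.filter (fun x : ZMod q => ∃ s : ZMod q, x ^ κ + β = ρ * s ^ l)).card : ℝ)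
      ≤ (g : ℝ) + ((univ.filter
        (fun u : (ZMod q)ˣ => χ ((u : ZMod q) ^ κ + β) = χ ρ)).card : ℝ) + 1 := by
    have h2 := card_le_card hsub
    have h3 := (h2.trans (card_insert_le _ _)).trans
      (Nat.add_le_add_right (card_image_le.trans (card_union_le _ _)) 1)
    have h4 := card_pow_eq_le κ hκ (Units.mk0 (-β) (neg_ne_zero.mpr hβ))
    rw [← hg] at h4
    have h5 : (univ.filter (fun x : ZMod q => ∃ s : ZMod q, x ^ κ + β = ρ * s ^ l)).card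
      ≤ g + (univ.filter
        (fun u : (ZMod q)ˣ => χ ((u : ZMod q) ^ κ + β) = χ ρ)).card + 1 := by omega
    exact_mod_cast h5
  have h2 : (g : ℝ) ≤ (g : ℝ) ^ 2 := by nlinarith
  have h3 : 6 * ((univ.filter (fun x : ZMod q => ∃ s : ZMod q, x ^ κ + β = ρ * s ^ l)).card : ℝ)
      ≤ 5 * q := by
    linarith
  exact_mod_cast h3

end Pool.Agent.Work.MP_2738db_nt_U.helper15
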