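import Mathlib
import Pool.Agent.Work.MP_2738db_nt_U.Interface

set_option autoImplicit false

namespace Pool.Agent.Work.MP_2738db_nt_U.helper15

open Finset

/-- `∑_{d ∣ k} d^(-a)` -/
noncomputable def DS (a : ℝ) (k : ℕ) : ℝ := ∑ d ∈ k.divisors, (d : ℝ) ^ (-a)

lemma DS_mul (a : ℝ) (m n : ℕ) (h : Nat.Coprime m n) : DS a (m * n) = DS a m * DS a n := by
  unfold DS
  have h1 : (m * n).divisors = (m.divisors ×ˢ n.divisors).image (fun p => p.1 * p.2) := by
    rw [Nat.divisors_mul, Finset.mul_def]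
  rw [h1, sum_image h.mul_injOn_divisors, sum_product, sum_mul_sum]
  refine sum_congr rfl (fun i _ => sum_congr rfl (fun j _ => ?_))
  push_cast
  exact Real.mul_rpow (by positivity) (by positivity)

lemma one_div_one_sub_le (x : ℝ) (h0 : 0 ≤ x) (h1 : x ≤ 3 / 4) : 1 / (1 - x) ≤ Real.exp (4 * x) := by
  have h2 : 1 / (1 - x) ≤ 1 + 4 * x := by
    rw [div_le_iff₀ (by linarith)]
    nlinarith
  have h3 := Real.add_one_le_exp (4 * x)
  linarith

lemma rpow_le_34 (a : ℝ) (ha : 1 / 2 ≤ a) (p : ℕ) (hp : 2 ≤ p) : (p : ℝ) ^ (-a) ≤ 3 / 4 := by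
  have hp' : (2 : ℝ) ≤ (p : ℝ) := by exact_mod_cast hp
  have h1 : (p : ℝ) ^ (-a) ≤ (p : ℝ) ^ (-(1 / 2 : ℝ)) :=
    Real.rpow_le_rpow_of_exponent_le (by linarith) (by linarith)
  have h2 : (p : ℝ) ^ (-(1 / 2 : ℝ)) ≤ (2 : ℝ) ^ (-(1 / 2 : ℝ)) :=
    Real.rpow_le_rpow_of_nonpos (by norm_num) hp' (by norm_num)
  have h3 : (2 : ℝ) ^ (-(1 / 2 : ℝ)) ≤ 3 / 4 := by
    rw [Real.rpow_neg (by norm_num), ← Real.sqrt_eq_rpow]
    have h4 : (4 / 3 : ℝ) ≤ Real.sqrt 2 := Real.le_sqrt_of_sq_le (by norm_num)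
    calc (Real.sqrt 2)⁻¹ ≤ (4 / 3 : ℝ)⁻¹ := inv_anti₀ (by norm_num) h4
      _ = 3 / 4 := by norm_num
  linarith

lemma DS_prime_pow (a : ℝ) (ha : 1 / 2 ≤ a) (p e : ℕ) (hp : p.Prime) :
    DS a (p ^ e) ≤ Real.exp (4 * (p : ℝ) ^ (-a)) := by
  unfold DS
  rw [Nat.sum_divisors_prime_pow hp]
  have hx0 : 0 ≤ (p : ℝ) ^ (-a) := by positivity
  have hx1 := rpow_le_34 a ha p hp.two_le
  refine le_trans ?_ (one_div_one_sub_le _ hx0 hx1)
  have h1 : ∀ i ∈ range (e + 1), ((p ^ i : ℕ) : ℝ) ^ (-a) = ((p : ℝ) ^ (-a)) ^ i := by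
    intro i _
    push_cast
    rw [← Real.rpow_natCast, ← Real.rpow_mul (by positivity), ← Real.rpow_natCast,
      ← Real.rpow_mul (by positivity), mul_comm]
  rw [sum_congr rfl h1, geom_sum_eq (by linarith)]
  rw [← neg_div_neg_eq, neg_sub, neg_sub]
  apply div_le_div_of_nonneg_right _ (by linarith)
  have : 0 ≤ ((p : ℝ) ^ (-a)) ^ (e + 1) := by positivity
  linarith

lemma DS_le (a : ℝ) (ha : 1 / 2 ≤ a) (k : ℕ) (hk : k ≠ 0) :
    DS a k ≤ Real.exp (4 * ∑ p ∈ k.primeFactors, (p : ℝ) ^ (-a)) := by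
  have h1 : DS a k = k.factorization.prod fun p e => DS a (p ^ e) := by
    refine Nat.multiplicative_factorization (DS a) (DS_mul a) ?_ hk
    simp [DS]
  rw [h1, Finsupp.prod, Nat.support_factorization, mul_sum, Real.exp_sum]
  apply prod_le_prod
  · intro p _
    unfold DS
    positivity
  · intro p hp
    exact DS_prime_pow a ha p _ (Nat.prime_of_mem_primeFactors hp)

lemma omega_le (k : ℕ) (hk : k ≠ 0) : (k.primeFactors.card : ℝ) ≤ 2 * Real.log k := by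
  have h1 : 2 ^ k.primeFactors.card ≤ k := by
    calc 2 ^ k.primeFactors.card ≤ ∏ p ∈ k.primeFactors, p :=
          Finset.pow_card_le_prod _ _ _ (fun p hp => (Nat.prime_of_mem_primeFactors hp).two_le)
      _ ≤ k := Nat.le_of_dvd (Nat.pos_of_ne_zero hk) (Nat.prod_primeFactors_dvd k)
  have h2 : (2 : ℝ) ^ k.primeFactors.card ≤ k := by exact_mod_cast h1
  have h3 := Real.log_le_log (by positivity) h2
  rw [Real.log_pow] at h3
  have h4 : (1 / 2 : ℝ) ≤ Real.log 2 := by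
    have := Real.log_two_gt_d9
    linarith
  have h5 : (k.primeFactors.card : ℝ) * (1 / 2) ≤ (k.primeFactors.card : ℝ) * Real.log 2 :=
    mul_le_mul_of_nonneg_left h4 (by positivity)
  linarith

/-- the sum over the prime factors -/
lemma sum_pf_le (s : ℝ) (hs : 1 ≤ s) (k : ℕ) (hk : k ≠ 0) (hlog : Real.log k ≤ Real.exp s) :
    ∑ p ∈ k.primeFactors, (p : ℝ) ^ (-(1 - 1 / (2 * s))) ≤ Real.exp 1 * (3 + 2 * s) := by
  set z : ℝ := Real.exp (2 * s) with hz
  have hz1 : 1 ≤ z := Real.one_le_exp (by linarith)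
  have hzσ : z ^ (1 / (2 * s)) = Real.exp 1 := by
    rw [hz, ← Real.exp_mul]
    congr 1
    field_simp
  rw [← sum_filter_add_sum_filter_not k.primeFactors (fun p : ℕ => (p : ℝ) ≤ z)]
  have hA : ∑ p ∈ k.primeFactors.filter (fun p : ℕ => (p : ℝ) ≤ z), (p : ℝ) ^ (-(1 - 1 / (2 * s)))
      ≤ Real.exp 1 * (1 + 2 * s) := by
    have h1 : ∀ p ∈ k.primeFactors.filter (fun p : ℕ => (p : ℝ) ≤ z),
        (p : ℝ) ^ (-(1 - 1 / (2 * s))) ≤ Real.exp 1 * (p : ℝ)⁻¹ := by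
      intro p hp
      rw [mem_filter] at hp
      have hp0 : (0 : ℝ) < p := by exact_mod_cast (Nat.prime_of_mem_primeFactors hp.1).pos
      have h2 : (p : ℝ) ^ (-(1 - 1 / (2 * s))) = (p : ℝ) ^ (1 / (2 * s)) * (p : ℝ)⁻¹ := by
        rw [← Real.rpow_neg_one, ← Real.rpow_add hp0]
        congr 1
        ring
      rw [h2, ← hzσ]
      apply mul_le_mul_of_nonneg_right _ (by positivity)
      exact Real.rpow_le_rpow hp0.le hp.2 (by positivity)
    refine (sum_le_sum h1).trans ?_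
    rw [← mul_sum]
    apply mul_le_mul_of_nonneg_left _ (Real.exp_pos 1).le
    have h3 : ∑ p ∈ k.primeFactors.filter (fun p : ℕ => (p : ℝ) ≤ z), (p : ℝ)⁻¹
        ≤ ∑ n ∈ Icc 1 ⌊z⌋₊, (n : ℝ)⁻¹ := by
      apply sum_le_sum_of_subset_of_nonneg
      · intro p hp
        rw [mem_filter] at hp
        rw [mem_Icc]
        exact ⟨(Nat.prime_of_mem_primeFactors hp.1).one_lt.le, Nat.le_floor hp.2⟩
      · intro i _ _
        positivity
    have h4 := harmonic_floor_le_one_add_log z hz1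
    rw [harmonic_eq_sum_Icc] at h4
    push_cast at h4
    rw [hz, Real.log_exp] at h4
    rw [hz] at h3
    linarith
  have hB : ∑ p ∈ k.primeFactors.filter (fun p : ℕ => ¬ (p : ℝ) ≤ z), (p : ℝ) ^ (-(1 - 1 / (2 * s)))
      ≤ Real.exp 1 * 2 := by
    have h1 : ∀ p ∈ k.primeFactors.filter (fun p : ℕ => ¬ (p : ℝ) ≤ z),
        (p : ℝ) ^ (-(1 - 1 / (2 * s))) ≤ Real.exp 1 * z⁻¹ := by
      intro p hp
      rw [mem_filter, not_le] at hp
      have h2 : z ^ (-(1 - 1 / (2 * s))) = Real.exp 1 * z⁻¹ := by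
        rw [← hzσ, ← Real.rpow_neg_one, ← Real.rpow_add (by linarith)]
        congr 1
        ring
      rw [← h2]
      apply Real.rpow_le_rpow_of_nonpos (by linarith) hp.2.le
      have : 1 / (2 * s) ≤ 1 := by
        rw [div_le_one (by linarith)]
        linarith
      linarith
    refine (sum_le_card_nsmul _ _ _ h1).trans ?_
    rw [nsmul_eq_mul]
    have h2 : ((k.primeFactors.filter (fun p : ℕ => ¬ (p : ℝ) ≤ z)).card : ℝ) ≤ 2 * Real.exp s := by
      have h3 : (k.primeFactors.filter (fun p : ℕ => ¬ (p : ℝ) ≤ z)).card ≤ k.primeFactors.card :=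
        card_filter_le _ _
      have h4 : ((k.primeFactors.filter (fun p : ℕ => ¬ (p : ℝ) ≤ z)).card : ℝ)
          ≤ (k.primeFactors.card : ℝ) := by exact_mod_cast h3
      have h5 := omega_le k hk
      linarith
    have h6 : Real.exp s * z⁻¹ ≤ 1 := by
      rw [hz, ← Real.exp_neg, ← Real.exp_add]
      apply Real.exp_le_one_iff.mpr
      linarith
    have h7 : 0 ≤ Real.exp 1 * z⁻¹ := by positivity
    calc _ ≤ (2 * Real.exp s) * (Real.exp 1 * z⁻¹) := mul_le_mul_of_nonneg_right h2 h7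
      _ = (Real.exp 1 * 2) * (Real.exp s * z⁻¹) := by ring
      _ ≤ (Real.exp 1 * 2) * 1 := mul_le_mul_of_nonneg_left h6 (by positivity)
      _ = _ := by ring
  calc _ ≤ Real.exp 1 * (1 + 2 * s) + Real.exp 1 * 2 := add_le_add hA hB
    _ = _ := by ring

/-- the counting by divisors -/
lemma count_le (K S σ : ℝ) (hK : 0 ≤ K) (hS : 0 < S) (hσ : 0 ≤ σ) (k : ℕ) (hk : 1 ≤ k) :
    (((Icc 1 ⌊K⌋₊).filter (fun k₀ => S < (Nat.gcd k k₀ : ℝ))).card : ℝ)
      ≤ K * S ^ (-σ) * DS (1 - σ) k := by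
  classical
  have h1 : (Icc 1 ⌊K⌋₊).filter (fun k₀ => S < (Nat.gcd k k₀ : ℝ)) ⊆
      (k.divisors.filter (fun d : ℕ => S < (d : ℝ))).biUnion
        (fun d => (Icc 1 ⌊K⌋₊).filter (fun k₀ => d ∣ k₀)) := by
    intro k₀ h
    rw [mem_filter] at h
    rw [mem_biUnion]
    refine ⟨Nat.gcd k k₀, ?_, ?_⟩
    · rw [mem_filter, Nat.mem_divisors]
      exact ⟨⟨Nat.gcd_dvd_left _ _, by omega⟩, h.2⟩
    · rw [mem_filter]
      exact ⟨h.1, Nat.gcd_dvd_right _ _⟩
  have h2 : (((Icc 1 ⌊K⌋₊).filter (fun k₀ => S < (Nat.gcd k k₀ : ℝ))).card : ℝ) ≤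
      ∑ d ∈ k.divisors.filter (fun d : ℕ => S < (d : ℝ)),
        (((Icc 1 ⌊K⌋₊).filter (fun k₀ => d ∣ k₀)).card : ℝ) := by
    have := (card_le_card h1).trans card_biUnion_le
    exact_mod_cast this
  refine h2.trans ?_
  have h3 : ∀ d ∈ k.divisors.filter (fun d : ℕ => S < (d : ℝ)),
      (((Icc 1 ⌊K⌋₊).filter (fun k₀ => d ∣ k₀)).card : ℝ) ≤ K * S ^ (-σ) * (d : ℝ) ^ (-(1 - σ)) := by
    intro d hd
    rw [mem_filter] at hd
    have hd0 : 0 < (d : ℝ) := by linarith [hd.2]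
    have hd0' : 0 < d := by exact_mod_cast hd0
    have h4 : ((Icc 1 ⌊K⌋₊).filter (fun k₀ => d ∣ k₀)).card = ⌊K⌋₊ / d := by
      have := Nat.Ioc_filter_dvd_card_eq_div ⌊K⌋₊ d
      rw [← this]
      congr 1
    rw [h4]
    have h5 : ((⌊K⌋₊ / d : ℕ) : ℝ) ≤ K / d := by
      refine Nat.cast_div_le.trans ?_
      exact div_le_div_of_nonneg_right (Nat.floor_le hK) hd0.le
    refine h5.trans ?_
    have h6 : (d : ℝ) ^ (-(1 - σ)) = (d : ℝ) ^ σ * (d : ℝ)⁻¹ := by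
      rw [← Real.rpow_neg_one, ← Real.rpow_add hd0]
      congr 1
      ring
    have h7 : 1 ≤ S ^ (-σ) * (d : ℝ) ^ σ := by
      rw [Real.rpow_neg hS.le, inv_mul_eq_div, one_le_div (by positivity)]
      exact Real.rpow_le_rpow hS.le hd.2.le hσ
    rw [h6, div_eq_mul_inv]
    calc K * (d : ℝ)⁻¹ = (K * (d : ℝ)⁻¹) * 1 := by ring
      _ ≤ (K * (d : ℝ)⁻¹) * (S ^ (-σ) * (d : ℝ) ^ σ) :=
          mul_le_mul_of_nonneg_left h7 (by positivity)
      _ = _ := by ring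
  refine (sum_le_sum h3).trans ?_
  rw [← mul_sum]
  apply mul_le_mul_of_nonneg_left _ (by positivity)
  unfold DS
  apply sum_le_sum_of_subset_of_nonneg (filter_subset _ _)
  intro i _ _
  positivity

theorem stmt_Smo : Stmt_Smo := by
  refine ⟨(400 : ℝ) ^ 3, ?_⟩
  intro t K ht hK1 hK2 k hk hlog
  have ht0 : 0 < t := lt_of_lt_of_le (by norm_num) ht
  obtain ⟨s, hs⟩ : ∃ s : ℝ, s = t ^ (1 / 3 : ℝ) := ⟨_, rfl⟩
  rw [← hs] at hlog
  have hs3 : s ^ 3 = t := by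
    rw [hs, ← Real.rpow_natCast, ← Real.rpow_mul ht0.le]
    norm_num
  have hs400 : 400 ≤ s := by
    by_contra h
    rw [not_le] at h
    have hs0 : 0 ≤ s := by rw [hs]; positivity
    have : s ^ 3 < 400 ^ 3 := by gcongr
    linarith
  have hK0 : 0 < K := lt_of_lt_of_le (Real.exp_pos _) hK1
  have hlogK : t / 2 ≤ Real.log K := (Real.le_log_iff_exp_le hK0).mpr hK1
  have h1 := count_le K (K ^ (3 / 10 : ℝ)) (1 / (2 * s)) hK0.le (by positivity) (by positivity) k hk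
  refine h1.trans ?_
  have ha : (1 : ℝ) / 2 ≤ 1 - 1 / (2 * s) := by
    have : 1 / (2 * s) ≤ 1 / 2 := by
      apply one_div_le_one_div_of_le (by norm_num)
      linarith
    linarith
  have h2 := DS_le (1 - 1 / (2 * s)) ha k (by omega)
  have h3 := sum_pf_le s (by linarith) k (by omega) hlog
  have h4 : (K ^ (3 / 10 : ℝ)) ^ (-(1 / (2 * s))) ≤ Real.exp (-(3 / 40) * s ^ 2) := by
    rw [← Real.rpow_mul hK0.le, Real.rpow_def_of_pos hK0]
    apply Real.exp_le_exp.mpr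
    have h5 : s ^ 3 / 2 ≤ Real.log K := by rw [hs3]; exact hlogK
    have h6 : Real.log K * (3 / 10 * -(1 / (2 * s))) = -(Real.log K * (3 / (20 * s))) := by
      field_simp
      ring
    rw [h6]
    have h7 : s ^ 3 / 2 * (3 / (20 * s)) ≤ Real.log K * (3 / (20 * s)) :=
      mul_le_mul_of_nonneg_right h5 (by positivity)
    have h8 : s ^ 3 / 2 * (3 / (20 * s)) = 3 / 40 * s ^ 2 := by
      field_simp
      ring
    linarith
  have h5 : DS (1 - 1 / (2 * s)) k ≤ Real.exp (4 * (Real.exp 1 * (3 + 2 * s))) :=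
    h2.trans (Real.exp_le_exp.mpr (by linarith))
  have h6 : Real.exp (-(3 / 40) * s ^ 2) * Real.exp (4 * (Real.exp 1 * (3 + 2 * s)))
      ≤ 1 / (256 * t) := by
    rw [← Real.exp_add, ← hs3, le_div_iff₀ (by positivity)]
    have h7 : 256 * s ^ 3 ≤ Real.exp (s) := by
      have h8 : s ^ 5 / (Nat.factorial 5 : ℕ) ≤ Real.exp s :=
        Real.pow_div_factorial_le_exp s (by linarith) 5
      have h9 : ((Nat.factorial 5 : ℕ) : ℝ) = 120 := by norm_num [Nat.factorial]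
      rw [h9] at h8
      have h10 : (400 : ℝ) * 400 ≤ s * s := mul_le_mul hs400 hs400 (by norm_num) (by linarith)
      have h11 : 256 * s ^ 3 ≤ s ^ 5 / 120 := by
        rw [le_div_iff₀ (by norm_num)]
        have h12 : 0 ≤ s ^ 3 := by positivity
        have h13 : s ^ 5 = s ^ 3 * (s * s) := by ring
        rw [h13]
        nlinarith
      linarith
    calc _ ≤ Real.exp (-(3 / 40) * s ^ 2 + 4 * (Real.exp 1 * (3 + 2 * s))) * Real.exp s :=
          mul_le_mul_of_nonneg_left h7 (Real.exp_pos _).le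
      _ = Real.exp (-(3 / 40) * s ^ 2 + 4 * (Real.exp 1 * (3 + 2 * s)) + s) := by
          rw [← Real.exp_add]
      _ ≤ 1 := by
          rw [Real.exp_le_one_iff]
          have := Real.exp_one_lt_d9
          nlinarith
  calc K * (K ^ (3 / 10 : ℝ)) ^ (-(1 / (2 * s))) * DS (1 - 1 / (2 * s)) k
      ≤ K * Real.exp (-(3 / 40) * s ^ 2) * Real.exp (4 * (Real.exp 1 * (3 + 2 * s))) := by
        gcongr
        unfold DS
        positivity
    _ = K * (Real.exp (-(3 / 40) * s ^ 2) * Real.exp (4 * (Real.exp 1 * (3 + 2 * s)))) := by ring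
    _ ≤ K * (1 / (256 * t)) := mul_le_mul_of_nonneg_left h6 hK0.le
    _ = K / (256 * t) := by ring

end Pool.Agent.Work.MP_2738db_nt_U.helper15
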